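import Pool.Agent.H114.Tur.Fin

/-!
# Sharp Turán-type inequality for the second derivative, odd degree

For `n = 2 m + 1 ≥ 7` the best constant `C_n` in `‖P''‖ ≥ C_n ‖P‖` for the real polynomials of degree
`n` with all zeros in `[-1, 1]` is attained by `(1 - x) ^ m (1 + x) ^ (m + 1)`, and, up to a constant
factor and the reflection `x ↦ -x`, only by this polynomial.
-/

set_option autoImplicit false

namespace Pool.Agent.Results.MP_d240f8_an.OddDegree

open Polynomial

/-- `‖P‖ = max_{x ∈ [-1, 1]} |P (x)|`. -/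
noncomputable def supNorm (P : ℝ[X]) : ℝ := sSup ((fun x => |P.eval x|) '' Set.Icc (-1) 1)

/-- `𝒫_n`: the real polynomials of degree exactly `n` all of whose `n` zeros, counted with
multiplicity, lie in `[-1, 1]`. -/
def InClass (n : ℕ) (P : ℝ[X]) : Prop :=
  P.natDegree = n ∧ Multiset.card P.roots = n ∧ ∀ z ∈ P.roots, z ∈ Set.Icc (-1 : ℝ) 1

/-- The second derivative. -/
noncomputable def D2 (P : ℝ[X]) : ℝ[X] := derivative (derivative P)

/-- `C_n = inf {‖P''‖ / ‖P‖ : P ∈ 𝒫_n}`. -/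
noncomputable def bestConst (n : ℕ) : ℝ :=
  sInf {r | ∃ P : ℝ[X], InClass n P ∧ r = supNorm (D2 P) / supNorm P}

/-- `Q_m (x) = (1 - x) ^ m (1 + x) ^ (m + 1)`. -/
noncomputable def Qm (m : ℕ) : ℝ[X] := (1 - X) ^ m * (1 + X) ^ (m + 1)

lemma Qm_eq (j : ℕ) : Qm (j + 3) = Pool.Agent.H114.Tur.Q j := by
  unfold Qm Pool.Agent.H114.Tur.Q
  rw [mul_comm]

lemma Qm_class (m : ℕ) : InClass (2 * m + 1) (Qm m) := by
  have e : Qm m = C ((-1) ^ m) * ((X - C 1) ^ m * (X - C (-1)) ^ (m + 1)) := by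
    have e1 : (1 - X : ℝ[X]) ^ m = C ((-1) ^ m) * (X - C 1) ^ m := by
      rw [C_pow, ← mul_pow]
      congr 1
      simp
    unfold Qm
    rw [e1]
    simp only [C_neg, C_1, sub_neg_eq_add]
    ring
  have hc : ((-1 : ℝ) ^ m) ≠ 0 := pow_ne_zero _ (by norm_num)
  have h1 : (X - C (1 : ℝ)) ^ m ≠ 0 := pow_ne_zero _ (X_sub_C_ne_zero _)
  have h2 : (X - C (-1 : ℝ)) ^ (m + 1) ≠ 0 := pow_ne_zero _ (X_sub_C_ne_zero _)
  have hr : (Qm m).roots = m • {1} + (m + 1) • {-1} := by
    rw [e, roots_C_mul _ hc, roots_mul (mul_ne_zero h1 h2), roots_pow, roots_pow, roots_X_sub_C,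
      roots_X_sub_C]
  refine ⟨?_, ?_, ?_⟩
  · rw [e, natDegree_C_mul hc, natDegree_mul h1 h2, natDegree_pow, natDegree_pow,
      natDegree_X_sub_C, natDegree_X_sub_C]
    ring
  · rw [hr]
    simp
    ring
  · intro z hz
    rw [hr, Multiset.mem_add, Multiset.mem_nsmul, Multiset.mem_nsmul] at hz
    rcases hz with ⟨-, h⟩ | ⟨-, h⟩
    · rw [Multiset.mem_singleton.1 h]; norm_num
    · rw [Multiset.mem_singleton.1 h]; norm_num

/-- every member of the class is a product of linear factors -/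
lemma InClass.prod {n : ℕ} (hn : 0 < n) {P : ℝ[X]} (h : InClass n P) :
    ∃ (k : ℕ) (z : Fin k → ℝ) (a : ℝ), k = n ∧ a ≠ 0 ∧ (∀ i, -1 ≤ z i ∧ z i ≤ 1) ∧
      P = Pool.Agent.H114.Tur.pr a z := by
  obtain ⟨h1, h2, h3⟩ := h
  have hP : P ≠ 0 := by
    rintro rfl
    rw [natDegree_zero] at h1
    omega
  refine ⟨P.roots.toList.length, fun i => P.roots.toList[i.1], P.leadingCoeff, ?_,
    leadingCoeff_ne_zero.2 hP, fun i => ?_, ?_⟩
  · rw [Multiset.length_toList, h2]
  · have hm : P.roots.toList[i.1] ∈ P.roots := Multiset.mem_toList.1 (List.getElem_mem i.2)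
    have := h3 _ hm
    exact ⟨this.1, this.2⟩
  · unfold Pool.Agent.H114.Tur.pr
    rw [Fin.prod_univ_fun_getElem P.roots.toList (fun a => X - C a), ← Multiset.prod_coe,
      ← Multiset.map_coe, Multiset.coe_toList]
    exact (C_leadingCoeff_mul_prod_multiset_X_sub_C (h2.trans h1.symm)).symm

/-- **Question 1.** Let `n = 2 m + 1 ≥ 7`. Then `C_n = ‖Q_m''‖ / ‖Q_m‖`; the extremal polynomials
are the multiples of `Q_m (x)` and of `Q_m (-x)`; and `C_n` is the given expression in the only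
zero `x` of the given cubic between `1 / n` and `1 / (n - 2)`. -/
theorem result (m : ℕ) (hm : 3 ≤ m) :
    InClass (2 * m + 1) (Qm m) ∧
    bestConst (2 * m + 1) = supNorm (D2 (Qm m)) / supNorm (Qm m) ∧
    (∀ P : ℝ[X], InClass (2 * m + 1) P → (supNorm (D2 P) = bestConst (2 * m + 1) * supNorm P ↔
      ∃ b : ℝ, b ≠ 0 ∧ (P = C b * Qm m ∨ P = C b * (Qm m).comp (-X)))) ∧
    ∃ x : ℝ, (1 / (2 * m + 1) < x ∧ x < 1 / (2 * m - 1) ∧
      (2 * m + 1) * (2 * m - 1) * x ^ 3 - 3 * (2 * m - 1) * x ^ 2 - 3 * (2 * m - 1) * x + 3 = 0) ∧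
      (∀ y : ℝ, 1 / (2 * m + 1) < y → y < 1 / (2 * m - 1) →
        (2 * m + 1) * (2 * m - 1) * y ^ 3 - 3 * (2 * m - 1) * y ^ 2 - 3 * (2 * m - 1) * y + 3 = 0 →
        y = x) ∧
      bestConst (2 * m + 1) = (2 * m + 1) ^ (2 * m + 1) /
        (2 ^ (2 * m + 1) * (m + 1) ^ (m + 1) * m ^ m) *
        (2 * m * (1 + x) ^ (m - 1) * (1 - x) ^ (m - 2) * (1 + 2 * x - (2 * m + 1) * x ^ 2)) := by
  obtain ⟨j, rfl⟩ : ∃ j, m = j + 3 := ⟨m - 3, by omega⟩
  have hq := Pool.Agent.H114.Tur.q0_pos j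
  have h7 := Pool.Agent.H114.Tur.N_ge j
  have hN : Pool.Agent.H114.Tur.N j = 2 * j + 7 := rfl
  have hM : supNorm (D2 (Qm (j + 3))) / supNorm (Qm (j + 3)) = Pool.Agent.H114.Tur.M0 j := by
    rw [Qm_eq]
    change Pool.Agent.H114.Tur.nrm _ / Pool.Agent.H114.Tur.nrm _ = _
    rw [Pool.Agent.H114.Tur.nrm_Q]
    rfl
  have key : ∀ P : ℝ[X], InClass (2 * (j + 3) + 1) P →
      Pool.Agent.H114.Tur.M0 j * supNorm P ≤ supNorm (D2 P) ∧ 0 < supNorm P ∧
      (supNorm (D2 P) ≤ Pool.Agent.H114.Tur.M0 j * supNorm P →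
        ∃ b : ℝ, b ≠ 0 ∧ (P = C b * Qm (j + 3) ∨ P = C b * (Qm (j + 3)).comp (-X))) := by
    intro P hP
    obtain ⟨k, z, a, hk, ha, hz, rfl⟩ := hP.prod (by omega)
    have hne : Pool.Agent.H114.Tur.pr a z ≠ 0 := by
      unfold Pool.Agent.H114.Tur.pr
      exact mul_ne_zero (C_ne_zero.2 ha) (Finset.prod_ne_zero_iff.2 fun i _ => X_sub_C_ne_zero (z i))
    have h := Pool.Agent.H114.Tur.prod_form j (by rw [Fintype.card_fin, hk]; ring) ha hz
    rw [Qm_eq]
    exact ⟨h.1, Pool.Agent.H114.Tur.nrm_pos hne, h.2⟩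
  have hbest : bestConst (2 * (j + 3) + 1) = Pool.Agent.H114.Tur.M0 j := by
    have hl : IsLeast {r | ∃ P : ℝ[X], InClass (2 * (j + 3) + 1) P ∧
        r = supNorm (D2 P) / supNorm P} (Pool.Agent.H114.Tur.M0 j) := by
      refine ⟨⟨Qm (j + 3), Qm_class _, hM.symm⟩, ?_⟩
      rintro _ ⟨P, hP, rfl⟩
      obtain ⟨h1, h2, -⟩ := key P hP
      rw [le_div_iff₀ h2]
      exact h1
    exact hl.csInf_eq
  have hnrmQ : supNorm (Qm (j + 3)) = Pool.Agent.H114.Tur.q0 j := by
    rw [Qm_eq]; exact Pool.Agent.H114.Tur.nrm_Q j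
  have hD2Q : supNorm (D2 (Qm (j + 3))) = Pool.Agent.H114.Tur.M0 j * supNorm (Qm (j + 3)) := by
    rw [← hM, div_mul_cancel₀]
    rw [hnrmQ]; exact hq.ne'
  refine ⟨Qm_class _, by rw [hbest, hM], fun P hP => ?_, ?_⟩
  · rw [hbest]
    constructor
    · intro h
      exact (key P hP).2.2 h.le
    · rintro ⟨b, hb, rfl | rfl⟩
      · have e1 : supNorm (C b * Qm (j + 3)) = |b| * supNorm (Qm (j + 3)) := by
          obtain ⟨⟨x, hx, hxe⟩, hmax⟩ := Pool.Agent.H114.Tur.nrm_spec (Qm (j + 3))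
          have := Pool.Agent.H114.Tur.nrm_eq (P := C b * Qm (j + 3)) hx (fun y hy => by
            simp only [eval_mul, eval_C, abs_mul]
            exact mul_le_mul_of_nonneg_left (by rw [hxe]; exact hmax y hy) (abs_nonneg b))
          simp only [eval_mul, eval_C, abs_mul] at this
          change Pool.Agent.H114.Tur.nrm _ = _ * Pool.Agent.H114.Tur.nrm _
          rw [this, hxe]
        have e2 : supNorm (D2 (C b * Qm (j + 3))) = |b| * supNorm (D2 (Qm (j + 3))) := by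
          have e3 : D2 (C b * Qm (j + 3)) = C b * D2 (Qm (j + 3)) := by
            unfold D2; rw [derivative_C_mul, derivative_C_mul]
          rw [e3]
          obtain ⟨⟨x, hx, hxe⟩, hmax⟩ := Pool.Agent.H114.Tur.nrm_spec (D2 (Qm (j + 3)))
          have := Pool.Agent.H114.Tur.nrm_eq (P := C b * D2 (Qm (j + 3))) hx (fun y hy => by
            simp only [eval_mul, eval_C, abs_mul]
            exact mul_le_mul_of_nonneg_left (by rw [hxe]; exact hmax y hy) (abs_nonneg b))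
          simp only [eval_mul, eval_C, abs_mul] at this
          change Pool.Agent.H114.Tur.nrm _ = _ * Pool.Agent.H114.Tur.nrm _
          rw [this, hxe]
        rw [e1, e2, hD2Q]; ring
      · have hrefl : ∀ R : ℝ[X], supNorm (C b * R.comp (-X)) = |b| * supNorm R := by
          intro R
          obtain ⟨⟨x, hx, hxe⟩, hmax⟩ := Pool.Agent.H114.Tur.nrm_spec R
          have hx' : -x ∈ Set.Icc (-1 : ℝ) 1 := ⟨by linarith [hx.2], by linarith [hx.1]⟩
          have := Pool.Agent.H114.Tur.nrm_eq (P := C b * R.comp (-X)) hx' (fun y hy => by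
            simp only [eval_mul, eval_C, abs_mul, eval_comp, eval_neg, eval_X, neg_neg]
            refine mul_le_mul_of_nonneg_left ?_ (abs_nonneg b)
            rw [hxe]
            exact hmax (-y) ⟨by linarith [hy.2], by linarith [hy.1]⟩)
          simp only [eval_mul, eval_C, abs_mul, eval_comp, eval_neg, eval_X, neg_neg] at this
          change Pool.Agent.H114.Tur.nrm _ = _ * Pool.Agent.H114.Tur.nrm _
          rw [this, hxe]
        have e3 : D2 (C b * (Qm (j + 3)).comp (-X)) = C b * (D2 (Qm (j + 3))).comp (-X) := by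
          unfold D2
          rw [derivative_C_mul, derivative_C_mul, derivative_comp, derivative_mul, derivative_comp]
          simp
        rw [e3, hrefl, hrefl, hD2Q]; ring
  · obtain ⟨x, l1, l2, hK, hval, -, -⟩ := Pool.Agent.H114.Tur.nrm_d2Q j
    unfold Pool.Agent.H114.Tur.Kc at hK
    have hN2 : Pool.Agent.H114.Tur.N j - 2 = 2 * j + 5 := by rw [hN]; ring
    rw [hN2, hN] at hK
    rw [hN2] at l2
    rw [hN] at l1
    have hj : (0 : ℝ) ≤ j := Nat.cast_nonneg j
    push_cast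
    refine ⟨x, ⟨?_, ?_, ?_⟩, ?_, ?_⟩
    · rw [show 2 * ((j : ℝ) + 3) + 1 = 2 * j + 7 by ring]; exact l1
    · rw [show 2 * ((j : ℝ) + 3) - 1 = 2 * j + 5 by ring]; exact l2
    · linear_combination hK
    · intro y y1 y2 hy
      rw [show 2 * ((j : ℝ) + 3) + 1 = 2 * j + 7 by ring] at y1
      rw [show 2 * ((j : ℝ) + 3) - 1 = 2 * j + 5 by ring] at y2
      by_contra hne
      have hx0 : 0 < x := lt_trans (by positivity) l1
      have hy0 : 0 < y := lt_trans (by positivity) y1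
      have hx5 : (2 * (j : ℝ) + 5) * x < 1 := by
        rw [lt_div_iff₀ (by positivity)] at l2; linarith
      have hy5 : (2 * (j : ℝ) + 5) * y < 1 := by
        rw [lt_div_iff₀ (by positivity)] at y2; linarith
      have hdiff : (2 * (j : ℝ) + 5) * (y - x) *
          ((2 * j + 7) * (x ^ 2 + x * y + y ^ 2) - 3 * (x + y) - 3) = 0 := by
        linear_combination hy - hK
      have hx1 : x < 1 / 5 := by nlinarith
      have hy1 : y < 1 / 5 := by nlinarith
      have hneg : (2 * (j : ℝ) + 7) * (x ^ 2 + x * y + y ^ 2) - 3 * (x + y) - 3 < 0 := by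
        have a1 : (2 * (j : ℝ) + 7) * x ^ 2 ≤ (1 + 2 * x) * x := by nlinarith
        have a2 : (2 * (j : ℝ) + 7) * (x * y) ≤ (1 + 2 * x) * y := by nlinarith
        have a3 : (2 * (j : ℝ) + 7) * y ^ 2 ≤ (1 + 2 * y) * y := by nlinarith
        nlinarith
      rcases mul_eq_zero.1 hdiff with h | h
      · rcases mul_eq_zero.1 h with h | h
        · linarith
        · exact hne (by linarith)
      · linarith
    · rw [hbest]
      have hv : Pool.Agent.H114.Tur.nrm (derivative (derivative (Pool.Agent.H114.Tur.Q j))) =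
          (2 * j + 6) * ((1 + x) ^ (j + 2) * (1 - x) ^ (j + 1) * (1 + 2 * x - (2 * j + 7) * x ^ 2)) := by
        rw [Pool.Agent.H114.Tur.d2Q_eval, hN] at hval
        linear_combination hval
      have hq0 : Pool.Agent.H114.Tur.q0 j = 2 ^ (2 * (j + 3) + 1) * ((j : ℝ) + 3 + 1) ^ (j + 3 + 1) *
          ((j : ℝ) + 3) ^ (j + 3) / (2 * ((j : ℝ) + 3) + 1) ^ (2 * (j + 3) + 1) := by
        rw [Pool.Agent.H114.Tur.q0_eq, hN]
        have e1 : (1 : ℝ) + 1 / (2 * j + 7) = 2 * (j + 3 + 1) / (2 * (j + 3) + 1) := by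
          field_simp; ring
        have e2 : (1 : ℝ) - 1 / (2 * j + 7) = 2 * (j + 3) / (2 * (j + 3) + 1) := by
          field_simp; ring
        rw [e1, e2, div_pow, div_pow, mul_pow, mul_pow, div_mul_div_comm, ← pow_add,
          show j + 4 + (j + 3) = 2 * (j + 3) + 1 by ring]
        congr 1
        rw [show 2 * (j + 3) + 1 = (j + 4) + (j + 3) by ring, pow_add]
        ring
      unfold Pool.Agent.H114.Tur.M0
      rw [hv, hq0]
      field_simp
      ring

end Pool.Agent.Results.MP_d240f8_an.OddDegree
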